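import Pool.Agent.H48.CP.Bridge

/-!
Sequences of the pair with a new edge `none` (project CP, MP_472c72): a member cut at the new edge
is the new edge followed by one or two old members.
-/

namespace H13CP

open Finset H48CP

variable {U : Type*}

/-- an old end -/
def lf (e : U × Bool) : Option U × Bool := (some e.1, e.2)

lemma lf_inj {e f : U × Bool} : lf e = lf f ↔ e = f := by
  rcases e with ⟨u, i⟩
  rcases f with ⟨v, j⟩
  simp [lf]

@[simp] lemma mu_lf (e : U × Bool) : mu (lf e) = lf (mu e) := rfl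

@[simp] lemma lf_fst (e : U × Bool) : (lf e).1 = some e.1 := rfl

lemma lf_ne_none (e : U × Bool) (i : Bool) : lf e ≠ (none, i) := by
  simp [lf]

/-- the new edge and one old member -/
def seq1 (b : ℕ → U × Bool) (k : ℕ) : Option U × Bool :=
  if k = 0 then (none, true) else lf (b (k - 1))

/-- the new edge and two old members -/
def seq2 (n0 : ℕ) (a0 a2 : ℕ → U × Bool) (k : ℕ) : Option U × Bool :=
  if k = 0 then (none, true) else if k ≤ n0 then lf (a0 (k - 1)) else lf (a2 (k - 1 - n0))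

@[simp] lemma seq1_zero (b : ℕ → U × Bool) : seq1 b 0 = (none, true) := rfl

lemma seq1_succ (b : ℕ → U × Bool) (k : ℕ) : seq1 b (1 + k) = lf (b k) := by
  unfold seq1
  rw [if_neg (by omega), Nat.add_sub_cancel_left]

@[simp] lemma seq2_zero (n0 : ℕ) (a0 a2 : ℕ → U × Bool) : seq2 n0 a0 a2 0 = (none, true) := rfl

lemma seq2_left {n0 : ℕ} (a0 a2 : ℕ → U × Bool) {k : ℕ} (hk : k < n0) :
    seq2 n0 a0 a2 (1 + k) = lf (a0 k) := by
  unfold seq2
  rw [if_neg (by omega), if_pos (by omega), Nat.add_sub_cancel_left]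

lemma seq2_right (n0 : ℕ) (a0 a2 : ℕ → U × Bool) (k : ℕ) :
    seq2 n0 a0 a2 (1 + n0 + k) = lf (a2 k) := by
  unfold seq2
  rw [if_neg (by omega), if_neg (by omega)]
  congr 2
  omega

section

variable {σ : U × Bool → U × Bool} {τ : Option U × Bool → Option U × Bool}
  {n n0 n2 m : ℕ} {a a0 a2 b : ℕ → U × Bool}

lemma cut_mid (ha : CutSeq σ n a) (hσ : ∀ e, σ (σ e) = e) {i : ℕ} (hi : i + 1 < n) :
    mu (a i) ≠ a 0 ∧ mu (a i) ≠ σ (a 0) := by
  constructor
  · intro h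
    have h0 : (a i).1 = (a 0).1 := by
      rw [← h]
      rfl
    have h1 : i = 0 := ha.inj i 0 (by omega) (by omega) h0
    subst h1
    exact mu_ne _ h
  · intro h
    have h1 := ha.step i hi
    rw [h, hσ] at h1
    have h2 : 0 = i + 1 := ha.inj 0 (i + 1) (by omega) hi (congrArg Prod.fst h1)
    omega

lemma cut_last (ha : CutSeq σ n a) (hσ : ∀ e, σ (σ e) = e) : mu (a (n - 1)) = σ (a 0) := by
  rw [← ha.close, hσ]

/-- one old member behind the new edge -/
theorem cut1 (hσ : ∀ e, σ (σ e) = e) (hb : CutSeq σ m b) (h1 : τ (none, false) = lf (b 0))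
    (h2 : τ (lf (σ (b 0))) = (none, true))
    (h3 : ∀ e, e ≠ b 0 → e ≠ σ (b 0) → τ (lf e) = lf (σ e)) : CutSeq τ (1 + m) (seq1 b) := by
  have hm := hb.pos
  refine ⟨by omega, ?_, ?_, ?_⟩
  · intro i j hi hj h
    rcases Nat.eq_zero_or_pos i with h4 | h4
    · rcases Nat.eq_zero_or_pos j with h5 | h5
      · omega
      · obtain ⟨j, rfl⟩ : ∃ k, j = 1 + k := ⟨j - 1, by omega⟩
        subst h4
        rw [seq1_succ] at h
        simp at h
    · obtain ⟨i, rfl⟩ : ∃ k, i = 1 + k := ⟨i - 1, by omega⟩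
      rcases Nat.eq_zero_or_pos j with h5 | h5
      · subst h5
        rw [seq1_succ] at h
        simp at h
      · obtain ⟨j, rfl⟩ : ∃ k, j = 1 + k := ⟨j - 1, by omega⟩
        rw [seq1_succ, seq1_succ, lf_fst, lf_fst, Option.some.injEq] at h
        rw [hb.inj i j (by omega) (by omega) h]
  · intro i hi
    rcases Nat.eq_zero_or_pos i with h4 | h4
    · subst h4
      rw [seq1_zero, show 0 + 1 = 1 + 0 from rfl, seq1_succ]
      exact h1
    · obtain ⟨i, rfl⟩ : ∃ k, i = 1 + k := ⟨i - 1, by omega⟩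
      rw [show 1 + i + 1 = 1 + (i + 1) by omega, seq1_succ, seq1_succ, mu_lf]
      have h5 := cut_mid hb hσ (i := i) (by omega)
      rw [h3 _ h5.1 h5.2, hb.step i (by omega)]
  · have : 1 + m - 1 = 1 + (m - 1) := by omega
    rw [this, seq1_succ, mu_lf, cut_last hb hσ, h2, seq1_zero]

/-- two old members behind the new edge -/
theorem cut2 (hσ : ∀ e, σ (σ e) = e) (ha : CutSeq σ n0 a0) (hb : CutSeq σ n2 a2)
    (hd : ∀ i < n0, ∀ j < n2, (a0 i).1 ≠ (a2 j).1) (h1 : τ (none, false) = lf (a0 0))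
    (h2 : τ (lf (σ (a0 0))) = lf (a2 0)) (h3 : τ (lf (σ (a2 0))) = (none, true))
    (h4 : ∀ e, e ≠ a0 0 → e ≠ σ (a0 0) → e ≠ a2 0 → e ≠ σ (a2 0) → τ (lf e) = lf (σ e)) :
    CutSeq τ (1 + n0 + n2) (seq2 n0 a0 a2) := by
  have hn0 := ha.pos
  have hn2 := hb.pos
  have dec : ∀ k, k < 1 + n0 + n2 → k = 0 ∨ (∃ i < n0, k = 1 + i) ∨ ∃ j < n2, k = 1 + n0 + j := by
    intro k hk
    rcases Nat.eq_zero_or_pos k with h | h
    · exact Or.inl h
    · rcases Nat.lt_or_ge k (1 + n0) with h' | h'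
      · exact Or.inr (Or.inl ⟨k - 1, by omega, by omega⟩)
      · exact Or.inr (Or.inr ⟨k - 1 - n0, by omega, by omega⟩)
  -- the ends of the second member are different from those of the first
  have occA : ∀ e : U × Bool, (e = a0 0 ∨ e = σ (a0 0)) → ∃ i < n0, (a0 i).1 = e.1 := by
    rintro e (rfl | rfl)
    · exact ⟨0, hn0, rfl⟩
    · exact ⟨n0 - 1, by omega, by rw [← cut_last ha hσ]; rfl⟩
  have occB : ∀ e : U × Bool, (e = a2 0 ∨ e = σ (a2 0)) → ∃ j < n2, (a2 j).1 = e.1 := by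
    rintro e (rfl | rfl)
    · exact ⟨0, hn2, rfl⟩
    · exact ⟨n2 - 1, by omega, by rw [← cut_last hb hσ]; rfl⟩
  have stepA : ∀ i, i + 1 < n0 → τ (lf (mu (a0 i))) = lf (a0 (i + 1)) := by
    intro i hi
    have h5 := cut_mid ha hσ hi
    have h6 : ∀ e, (e = a2 0 ∨ e = σ (a2 0)) → mu (a0 i) ≠ e := by
      intro e he h7
      obtain ⟨j, hj, hj'⟩ := occB e he
      refine hd i (by omega) j hj ?_
      rw [hj', ← h7]
      rfl
    rw [h4 _ h5.1 h5.2 (h6 _ (Or.inl rfl)) (h6 _ (Or.inr rfl)), ha.step i hi]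
  have stepB : ∀ j, j + 1 < n2 → τ (lf (mu (a2 j))) = lf (a2 (j + 1)) := by
    intro j hj
    have h5 := cut_mid hb hσ hj
    have h6 : ∀ e, (e = a0 0 ∨ e = σ (a0 0)) → mu (a2 j) ≠ e := by
      intro e he h7
      obtain ⟨i, hi, hi'⟩ := occA e he
      refine hd i hi j (by omega) ?_
      rw [hi', ← h7]
      rfl
    rw [h4 _ (h6 _ (Or.inl rfl)) (h6 _ (Or.inr rfl)) h5.1 h5.2, hb.step j hj]
  refine ⟨by omega, ?_, ?_, ?_⟩
  · intro i j hi hj h
    rcases dec i hi with rfl | ⟨i, hi', rfl⟩ | ⟨i, hi', rfl⟩ <;>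
      rcases dec j hj with rfl | ⟨j, hj', rfl⟩ | ⟨j, hj', rfl⟩
    · rfl
    · rw [seq2_left _ _ hj'] at h
      simp at h
    · rw [seq2_right] at h
      simp at h
    · rw [seq2_left _ _ hi'] at h
      simp at h
    · rw [seq2_left _ _ hi', seq2_left _ _ hj', lf_fst, lf_fst, Option.some.injEq] at h
      rw [ha.inj i j hi' hj' h]
    · rw [seq2_left _ _ hi', seq2_right, lf_fst, lf_fst, Option.some.injEq] at h
      exact absurd h (hd i hi' j hj')
    · rw [seq2_right] at h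
      simp at h
    · rw [seq2_left _ _ hj', seq2_right, lf_fst, lf_fst, Option.some.injEq] at h
      exact absurd h.symm (hd j hj' i hi')
    · rw [seq2_right, seq2_right, lf_fst, lf_fst, Option.some.injEq] at h
      rw [hb.inj i j hi' hj' h]
  · intro i hi
    rcases dec i (by omega) with rfl | ⟨i, hi', rfl⟩ | ⟨j, hj', rfl⟩
    · rw [seq2_zero, show 0 + 1 = 1 + 0 from rfl, seq2_left _ _ hn0]
      exact h1
    · rw [seq2_left _ _ hi', mu_lf]
      rcases Nat.lt_or_ge (i + 1) n0 with h5 | h5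
      · rw [show 1 + i + 1 = 1 + (i + 1) by omega, seq2_left _ _ h5, stepA i h5]
      · have h6 : i = n0 - 1 := by omega
        rw [show 1 + i + 1 = 1 + n0 + 0 by omega, seq2_right, h6, cut_last ha hσ, h2]
    · rw [seq2_right, mu_lf, show 1 + n0 + j + 1 = 1 + n0 + (j + 1) by omega, seq2_right,
        stepB j (by omega)]
  · have : 1 + n0 + n2 - 1 = 1 + n0 + (n2 - 1) := by omega
    rw [this, seq2_right, mu_lf, cut_last hb hσ, h3, seq2_zero]

/-! ### positions -/

lemma occ1_none : occ (1 + m) (seq1 b) none := ⟨0, by omega, rfl⟩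

lemma occ1 {u : U} : occ (1 + m) (seq1 b) (some u) ↔ occ m b u := by
  constructor
  · rintro ⟨i, hi, h⟩
    rcases Nat.eq_zero_or_pos i with h4 | h4
    · subst h4
      simp at h
    · obtain ⟨i, rfl⟩ : ∃ k, i = 1 + k := ⟨i - 1, by omega⟩
      rw [seq1_succ, lf_fst, Option.some.injEq] at h
      exact ⟨i, by omega, h⟩
  · rintro ⟨i, hi, h⟩
    exact ⟨1 + i, by omega, by rw [seq1_succ, lf_fst, h]⟩

lemma occ2_none : occ (1 + n0 + n2) (seq2 n0 a0 a2) none := ⟨0, by omega, rfl⟩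

lemma occ2 {u : U} :
    occ (1 + n0 + n2) (seq2 n0 a0 a2) (some u) ↔ occ n0 a0 u ∨ occ n2 a2 u := by
  constructor
  · rintro ⟨i, hi, h⟩
    rcases Nat.eq_zero_or_pos i with h4 | h4
    · subst h4
      simp at h
    · rcases Nat.lt_or_ge i (1 + n0) with h5 | h5
      · obtain ⟨i, rfl⟩ : ∃ k, i = 1 + k := ⟨i - 1, by omega⟩
        rw [seq2_left _ _ (by omega), lf_fst, Option.some.injEq] at h
        exact Or.inl ⟨i, by omega, h⟩
      · obtain ⟨i, rfl⟩ : ∃ k, i = 1 + n0 + k := ⟨i - 1 - n0, by omega⟩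
        rw [seq2_right, lf_fst, Option.some.injEq] at h
        exact Or.inr ⟨i, by omega, h⟩
  · rintro (⟨i, hi, h⟩ | ⟨i, hi, h⟩)
    · exact ⟨1 + i, by omega, by rw [seq2_left _ _ hi, lf_fst, h]⟩
    · exact ⟨1 + n0 + i, by omega, by rw [seq2_right, lf_fst, h]⟩

lemma posn1_none (h : CutSeq τ (1 + m) (seq1 b)) : posn (1 + m) (seq1 b) none = 0 :=
  posn_of h (by omega) rfl

lemma posn1 (h : CutSeq τ (1 + m) (seq1 b)) {u : U} (hu : occ m b u) :
    posn (1 + m) (seq1 b) (some u) = 1 + posn m b u := by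
  obtain ⟨h1, h2⟩ := posn_spec hu
  exact posn_of h (by omega) (by rw [seq1_succ, lf_fst, h2])

lemma posn2_none (h : CutSeq τ (1 + n0 + n2) (seq2 n0 a0 a2)) :
    posn (1 + n0 + n2) (seq2 n0 a0 a2) none = 0 :=
  posn_of h (by omega) rfl

lemma posn2_left (h : CutSeq τ (1 + n0 + n2) (seq2 n0 a0 a2)) {u : U} (hu : occ n0 a0 u) :
    posn (1 + n0 + n2) (seq2 n0 a0 a2) (some u) = 1 + posn n0 a0 u := by
  obtain ⟨h1, h2⟩ := posn_spec hu
  exact posn_of h (by omega) (by rw [seq2_left _ _ h1, lf_fst, h2])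

lemma posn2_right (h : CutSeq τ (1 + n0 + n2) (seq2 n0 a0 a2)) {u : U} (hu : occ n2 a2 u) :
    posn (1 + n0 + n2) (seq2 n0 a0 a2) (some u) = 1 + n0 + posn n2 a2 u := by
  obtain ⟨h1, h2⟩ := posn_spec hu
  exact posn_of h (by omega) (by rw [seq2_right, lf_fst, h2])

end

end H13CP
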