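import Pool.Agent.H13.CP.Orbit

/-!
A critical coloured pair in which `e` is not a bridge is a chain of members (project CP,
MP_472c72).
-/

namespace H13CP

open Finset H48CP

/-- a walk avoiding `v` -/
lemma walk_const {V : Type*} {H : SimpleGraph V} {α : Type*} {Y : V → α} {v : V}
    (hY : ∀ x y, x ≠ v → y ≠ v → H.Adj x y → Y x = Y y) {a b : V} (p : H.Walk a b)
    (hp : v ∉ p.support) : Y a = Y b := by
  induction p with
  | nil => rfl
  | @cons a c b h p ih =>
    rw [SimpleGraph.Walk.support_cons, List.mem_cons, not_or] at hp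
    rw [← ih hp.2]
    refine hY a c (fun e => hp.1 e.symm) (fun e => hp.2 ?_) h
    rw [← e]
    exact p.start_mem_support

/-- a graph in which every vertex separates `s` and `t` is a path from `s` to `t` -/
theorem path_of_sep {V : Type*} (H : SimpleGraph V) (s t : V) (hst : H.Reachable s t)
    (hsep : ∀ v, v ≠ s → v ≠ t → ∃ Y : V → ZMod 2,
      (∀ x y, x ≠ v → y ≠ v → H.Adj x y → Y x = Y y) ∧ Y s ≠ Y t) :
    (∀ v, H.Reachable s v) ∧ (∀ v, H.dist s v ≤ H.dist s t) ∧
    (∀ v w, H.dist s v = H.dist s w → v = w) ∧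
    (∀ x y, H.Adj x y → H.dist s y = H.dist s x + 1 ∨ H.dist s x = H.dist s y + 1) ∧
    (∀ k < H.dist s t, ∃ v w, H.Adj v w ∧ H.dist s v = k ∧ H.dist s w = k + 1) := by
  obtain ⟨p, hp⟩ := hst.exists_walk_length_eq_dist
  have hA : ∀ v, v ∈ p.support := by
    intro v
    by_contra hv
    obtain ⟨Y, h1, h2⟩ := hsep v (fun e => hv (e ▸ p.start_mem_support))
      (fun e => hv (e ▸ p.end_mem_support))
    exact h2 (walk_const h1 p hv)
  have hB : ∀ i, i ≤ p.length → H.dist s (p.getVert i) = i := by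
    intro i hi
    apply le_antisymm
    · have := SimpleGraph.dist_le (p.take i)
      rw [SimpleGraph.Walk.take_length] at this
      omega
    · have hr : H.Reachable s (p.getVert i) := ⟨p.take i⟩
      obtain ⟨w, hw⟩ := hr.exists_walk_length_eq_dist
      have := SimpleGraph.dist_le (w.append (p.drop i))
      rw [SimpleGraph.Walk.length_append, SimpleGraph.Walk.drop_length] at this
      omega
  have hC : ∀ v, ∃ i, i ≤ p.length ∧ p.getVert i = v := by
    intro v
    obtain ⟨i, hi, hi'⟩ := SimpleGraph.Walk.mem_support_iff_exists_getVert.1 (hA v)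
    exact ⟨i, hi', hi⟩
  have hR : ∀ v, H.Reachable s v := by
    intro v
    obtain ⟨i, hi, rfl⟩ := hC v
    exact ⟨p.take i⟩
  have hinj : ∀ v w, H.dist s v = H.dist s w → v = w := by
    intro v w h
    obtain ⟨i, hi, rfl⟩ := hC v
    obtain ⟨j, hj, rfl⟩ := hC w
    rw [hB i hi, hB j hj] at h
    rw [h]
  have hle : ∀ x y, H.Adj x y → H.dist s y ≤ H.dist s x + 1 := by
    intro x y h
    obtain ⟨w, hw⟩ := (hR x).exists_walk_length_eq_dist
    have := SimpleGraph.dist_le (w.concat h)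
    rw [SimpleGraph.Walk.length_concat] at this
    omega
  refine ⟨hR, ?_, hinj, ?_, ?_⟩
  · intro v
    obtain ⟨i, hi, rfl⟩ := hC v
    rw [hB i hi]
    omega
  · intro x y h
    have h1 := hle x y h
    have h2 := hle y x h.symm
    have h3 : H.dist s x ≠ H.dist s y := fun e => h.ne (hinj _ _ e)
    omega
  · intro k hk
    refine ⟨p.getVert k, p.getVert (k + 1), p.adj_getVert_succ (by omega), hB k (by omega),
      hB (k + 1) (by omega)⟩

variable {U : Type*}

/-- the levels of the members: `ka e` is the number of the `al`-member through `e`, `kb e` the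
number of the `be`-member through `e`, in the chain `0, ..., r` -/
structure Chain (P : Pr U) (r : ℕ) (ka kb : U × Bool → ℕ) : Prop where
  odd : Odd r
  aal : ∀ e, ka (P.al e) = ka e
  amu : ∀ e, ka (mu e) = ka e
  bbe : ∀ e, kb (P.be e) = kb e
  bmu : ∀ e, kb (mu e) = kb e
  asame : ∀ e f, ka e = ka f → SameO P.al e f
  bsame : ∀ e f, kb e = kb f → SameO P.be e f
  step : ∀ e, kb e = ka e + 1 ∨ ka e = kb e + 1
  aeven : ∀ e, Even (ka e)
  bodd : ∀ e, Odd (kb e)
  ale : ∀ e, ka e ≤ r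
  ble : ∀ e, kb e ≤ r
  x : ka P.p0 = 0
  y : kb P.q0 = r
  link : ∀ i < r, ∃ e, (ka e = i ∧ kb e = i + 1) ∨ (ka e = i + 1 ∧ kb e = i)

section

variable (P : Pr U)

/-- the members of the colour `al` -/
def stA : Setoid (U × Bool) where
  r := SameO P.al
  iseqv := ⟨SameO.refl _, fun h => h.symm P.al2, fun h h' => h.trans h'⟩

/-- the members of the colour `be` -/
def stB : Setoid (U × Bool) where
  r := SameO P.be
  iseqv := ⟨SameO.refl _, fun h => h.symm P.be2, fun h h' => h.trans h'⟩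

/-- the members -/
abbrev Mb := Quotient (stA P) ⊕ Quotient (stB P)

/-- the `al`-member of an end -/
def ma (e : U × Bool) : Mb P := Sum.inl (Quotient.mk (stA P) e)

/-- the `be`-member of an end -/
def mb (e : U × Bool) : Mb P := Sum.inr (Quotient.mk (stB P) e)

/-- two members are adjacent if they share an edge of weight two -/
def gr : SimpleGraph (Mb P) where
  Adj x y := ∃ e, (x = ma P e ∧ y = mb P e) ∨ (x = mb P e ∧ y = ma P e)
  symm := ⟨fun _ _ ⟨e, h⟩ => ⟨e, h.symm.imp (fun h' => ⟨h'.2, h'.1⟩) (fun h' => ⟨h'.2, h'.1⟩)⟩⟩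
  loopless := ⟨fun x ⟨e, h⟩ => by
    rcases h with ⟨h1, h2⟩ | ⟨h1, h2⟩ <;> rw [h1] at h2 <;> simp [ma, mb] at h2⟩

variable {P}

lemma ma_eq {e f : U × Bool} : ma P e = ma P f ↔ SameO P.al e f := by
  unfold ma
  rw [Sum.inl.injEq]
  exact Quotient.eq (r := stA P)

lemma mb_eq {e f : U × Bool} : mb P e = mb P f ↔ SameO P.be e f := by
  unfold mb
  rw [Sum.inr.injEq]
  exact Quotient.eq (r := stB P)

lemma ma_al (e : U × Bool) : ma P (P.al e) = ma P e :=
  ma_eq.2 ((SameO.refl P.al e).col.symm P.al2)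

lemma ma_mu (e : U × Bool) : ma P (mu e) = ma P e :=
  ma_eq.2 ((SameO.refl P.al e).mu.symm P.al2)

lemma mb_be (e : U × Bool) : mb P (P.be e) = mb P e :=
  mb_eq.2 ((SameO.refl P.be e).col.symm P.be2)

lemma mb_mu (e : U × Bool) : mb P (mu e) = mb P e :=
  mb_eq.2 ((SameO.refl P.be e).mu.symm P.be2)

lemma adj_ab (e : U × Bool) : (gr P).Adj (ma P e) (mb P e) := ⟨e, Or.inl ⟨rfl, rfl⟩⟩

lemma adj_ba (e : U × Bool) : (gr P).Adj (mb P e) (ma P e) := ⟨e, Or.inr ⟨rfl, rfl⟩⟩

lemma walk_parity {x y : Mb P} (p : (gr P).Walk x y) :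
    Even p.length ↔ (x.isLeft = y.isLeft) := by
  induction p with
  | nil => simp
  | @cons x z y h p ih =>
    rw [SimpleGraph.Walk.length_cons, Nat.even_add_one, ih]
    obtain ⟨e, ⟨h1, h2⟩ | ⟨h1, h2⟩⟩ := h
    · subst h1 h2
      cases y <;> simp [ma, mb]
    · subst h1 h2
      cases y <;> simp [ma, mb]

lemma reach_st (hNB : ∀ Y : U × Bool → ZMod 2, (∀ e, Y (P.al e) = Y e) →
    (∀ e, Y (P.be e) = Y e) → (∀ e, Y (mu e) = Y e) → Y P.p0 = Y P.q0) :
    (gr P).Reachable (ma P P.p0) (mb P P.q0) := by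
  classical
  by_contra hst
  have h := hNB (fun e => if (gr P).Reachable (ma P P.p0) (ma P e) then 1 else 0)
    (fun e => by simp only [ma_al]) (fun e => by
      have : (gr P).Reachable (ma P P.p0) (ma P (P.be e)) ↔
          (gr P).Reachable (ma P P.p0) (ma P e) := by
        have h1 : (gr P).Reachable (ma P e) (ma P (P.be e)) := by
          refine (adj_ab e).reachable.trans ?_
          rw [← mb_be e]
          exact (adj_ba (P.be e)).reachable
        exact ⟨fun h2 => h2.trans h1.symm, fun h2 => h2.trans h1⟩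
      simp only [this]) (fun e => by simp only [ma_mu])
  have h1 : ¬ (gr P).Reachable (ma P P.p0) (ma P P.q0) := fun h2 =>
    hst (h2.trans (adj_ab P.q0).reachable)
  rw [if_pos (SimpleGraph.Reachable.refl _), if_neg h1] at h
  exact absurd h (by decide)

lemma sep_of_crit [Finite U] (hC : P.Crit) (v : Mb P) (hs : v ≠ ma P P.p0)
    (ht : v ≠ mb P P.q0) : ∃ Y : Mb P → ZMod 2,
      (∀ x y, x ≠ v → y ≠ v → (gr P).Adj x y → Y x = Y y) ∧
        Y (ma P P.p0) ≠ Y (mb P P.q0) := by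
  -- reduction to a function on the ends
  have key : ∀ Y : U × Bool → ZMod 2, (∀ e, ma P e ≠ v → Y (P.al e) = Y e) →
      (∀ e, mb P e ≠ v → Y (P.be e) = Y e) → (∀ e, Y (mu e) = Y e) →
      Y P.p0 = Y P.q0 + 1 → ∃ Y : Mb P → ZMod 2,
      (∀ x y, x ≠ v → y ≠ v → (gr P).Adj x y → Y x = Y y) ∧
        Y (ma P P.p0) ≠ Y (mb P P.q0) := by
    intro Y hal hbe hmu hY
    have hA : ∀ e, ma P e ≠ v → Y (Quotient.out (Quotient.mk (stA P) e)) = Y e := by
      intro e he
      have h1 : SameO P.al e (Quotient.out (Quotient.mk (stA P) e)) :=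
        ma_eq.1 (by unfold ma; rw [Quotient.out_eq])
      refine h1.const (fun x hx => hal x ?_) (fun x _ => hmu x)
      rw [← ma_eq.2 hx]
      exact he
    have hB : ∀ e, mb P e ≠ v → Y (Quotient.out (Quotient.mk (stB P) e)) = Y e := by
      intro e he
      have h1 : SameO P.be e (Quotient.out (Quotient.mk (stB P) e)) :=
        mb_eq.1 (by unfold mb; rw [Quotient.out_eq])
      refine h1.const (fun x hx => hbe x ?_) (fun x _ => hmu x)
      rw [← mb_eq.2 hx]
      exact he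
    refine ⟨Sum.elim (fun a => Y a.out) (fun b => Y b.out), ?_, ?_⟩
    · rintro x y hx hy ⟨e, ⟨h1, h2⟩ | ⟨h1, h2⟩⟩
      · subst h1 h2
        show Y _ = Y _
        rw [hA e hx, hB e hy]
      · subst h1 h2
        show Y _ = Y _
        rw [hA e hy, hB e hx]
    · show Y _ ≠ Y _
      rw [hA _ hs.symm, hB _ ht.symm, hY]
      simp
  rcases v with a | b
  · obtain ⟨e0, rfl⟩ := Quotient.exists_rep a
    have hAlt : P.Alt (fun e => ma P e = ma P e0) (fun _ => False) := by
      refine ⟨fun e => by rw [ma_al], fun _ => Iff.rfl, fun e h => h.2, fun e => by rw [ma_mu],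
        fun h => hs h.symm, fun h => h, ⟨e0, Or.inl rfl⟩⟩
    rcases hC _ _ hAlt with ⟨Y, h, hY⟩ | ⟨Y, hY⟩
    · exact (no_single_jump P.be2 P.be1 (fun x _ => hY.yb x id) hY.ym hY.yh).elim
    · exact key Y (fun e he => hY.ya e he) (fun e _ => hY.yb e id) hY.ym hY.yx
  · obtain ⟨e0, rfl⟩ := Quotient.exists_rep b
    have hAlt : P.Alt (fun _ => False) (fun e => mb P e = mb P e0) := by
      refine ⟨fun _ => Iff.rfl, fun e => by rw [mb_be], fun e h => h.1, fun e => by rw [mb_mu],
        fun h => h, fun h => ht h.symm, ⟨e0, Or.inr rfl⟩⟩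
    rcases hC _ _ hAlt with ⟨Y, h, hY⟩ | ⟨Y, hY⟩
    · exact (no_single_jump P.al2 P.al1 (fun x _ => hY.ya x id) hY.ym hY.yh).elim
    · exact key Y (fun e _ => hY.ya e id) (fun e he => hY.yb e he) hY.ym hY.yx

/-- a critical pair in which `e` is not a bridge is a chain -/
theorem exists_chain [Finite U] (hC : P.Crit)
    (hNB : ∀ Y : U × Bool → ZMod 2, (∀ e, Y (P.al e) = Y e) →
      (∀ e, Y (P.be e) = Y e) → (∀ e, Y (mu e) = Y e) → Y P.p0 = Y P.q0) :
    ∃ r ka kb, Chain P r ka kb := by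
  obtain ⟨hR, hle, hinj, hstep, hlink⟩ := path_of_sep (gr P) _ _ (reach_st hNB)
    (sep_of_crit hC)
  have hpar : ∀ v, Even ((gr P).dist (ma P P.p0) v) ↔ v.isLeft = true := by
    intro v
    obtain ⟨p, hp⟩ := (hR v).exists_walk_length_eq_dist
    rw [← hp, walk_parity p]
    exact eq_comm
  refine ⟨(gr P).dist (ma P P.p0) (mb P P.q0), fun e => (gr P).dist (ma P P.p0) (ma P e),
    fun e => (gr P).dist (ma P P.p0) (mb P e), ?_⟩
  refine ⟨?_, fun e => by simp only [ma_al], fun e => by simp only [ma_mu],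
    fun e => by simp only [mb_be], fun e => by simp only [mb_mu],
    fun e f h => ma_eq.1 (hinj _ _ h), fun e f h => mb_eq.1 (hinj _ _ h),
    fun e => hstep _ _ (adj_ab e), fun e => (hpar _).2 rfl, ?_, fun e => hle _, fun e => hle _,
    SimpleGraph.dist_self, rfl, ?_⟩
  · rw [← Nat.not_even_iff_odd, hpar]
    simp [mb]
  · intro e
    rw [← Nat.not_even_iff_odd, hpar]
    simp [mb]
  · intro i hi
    obtain ⟨v, w, ⟨e, ⟨h1, h2⟩ | ⟨h1, h2⟩⟩, h3, h4⟩ := hlink i hi
    · subst h1 h2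
      exact ⟨e, Or.inl ⟨h3, h4⟩⟩
    · subst h1 h2
      exact ⟨e, Or.inr ⟨h4, h3⟩⟩

end

end H13CP
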