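import Pool.Agent.H13.CP.Cat
import Pool.Agent.H13.CP.Chain
import Pool.Agent.H48.CP.Hon

/-!
The pair with a new edge (project CP, MP_472c72): sequences, positions and the induced path
`z - c - a - w`.
-/

namespace H13CP

open Finset H48CP

variable {U : Type*}

section

variable {σa σb : U × Bool → U × Bool} {τa τb : Option U × Bool → Option U × Bool}
  {n0 n2 m1 : ℕ} {a0 a2 b1 : ℕ → U × Bool}

lemma posn_first {σ : U × Bool → U × Bool} {n : ℕ} {a : ℕ → U × Bool} (ha : CutSeq σ n a) :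
    posn n a (a 0).1 = 0 := posn_of ha ha.pos rfl

lemma posn_last {σ : U × Bool → U × Bool} {n : ℕ} {a : ℕ → U × Bool} (ha : CutSeq σ n a)
    (hσ : ∀ e, σ (σ e) = e) : posn n a (σ (a 0)).1 = n - 1 := by
  have := ha.pos
  exact posn_of ha (by omega) (by rw [← cut_last ha hσ]; rfl)

/-- the induced path `z - c - a - w` -/
theorem j2_p4 (hσa : ∀ e, σa (σa e) = e) (hσb : ∀ e, σb (σb e) = e) (ha0 : CutSeq σa n0 a0)
    (ha2 : CutSeq σa n2 a2) (hb1 : CutSeq σb m1 b1)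
    (hd : ∀ i < n0, ∀ j < n2, (a0 i).1 ≠ (a2 j).1)
    (hA : CutSeq τa (1 + n0 + n2) (seq2 n0 a0 a2)) (hB : CutSeq τb (1 + m1) (seq1 b1))
    {z w : U × Bool} (e0 : σa (a0 0) = z) (e1 : a2 0 = w) (e2 : b1 0 = z) (e3 : σb (b1 0) = w)
    {a c : U} (hc0 : occ n0 a0 c) (hc1 : occ m1 b1 c) (h2a : occ n2 a2 a) (h1a : occ m1 b1 a)
    (haw : a ≠ w.1) (hlt : posn m1 b1 a < posn m1 b1 c) :
    (sdo (1 + n0 + n2) (seq2 n0 a0 a2) (1 + m1) (seq1 b1)).G.P4 (some z.1) (some c) (some a)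
      (some w.1) := by
  have pn0 := ha0.pos
  have pn2 := ha2.pos
  have pm1 := hb1.pos
  have oz0 : occ n0 a0 z.1 := ⟨n0 - 1, by omega, by rw [← e0, ← cut_last ha0 hσa]; rfl⟩
  have ow2 : occ n2 a2 w.1 := ⟨0, pn2, by rw [e1]⟩
  have oz1 : occ m1 b1 z.1 := ⟨0, pm1, by rw [e2]⟩
  have ow1 : occ m1 b1 w.1 := ⟨m1 - 1, by omega, by rw [← e3, ← cut_last hb1 hσb]; rfl⟩
  have disj : ∀ {u v : U}, occ n0 a0 u → occ n2 a2 v → u ≠ v := by
    rintro u v ⟨i, hi, rfl⟩ ⟨j, hj, rfl⟩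
    exact hd i hi j hj
  have qz0 : posn n0 a0 z.1 = n0 - 1 := by rw [← e0]; exact posn_last ha0 hσa
  have qw2 : posn n2 a2 w.1 = 0 := by rw [← e1]; exact posn_first ha2
  have qz1 : posn m1 b1 z.1 = 0 := by rw [← e2]; exact posn_first hb1
  have qw1 : posn m1 b1 w.1 = m1 - 1 := by rw [← e3]; exact posn_last hb1 hσb
  -- `c` is not `z`
  have hcz : c ≠ z.1 := by
    rintro rfl
    omega
  have hcw : c ≠ w.1 := disj hc0 ow2
  have haz : z.1 ≠ a := disj oz0 h2a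
  have k1 : posn n0 a0 c < n0 - 1 := by
    have h1 := (posn_spec hc0).1
    have h2 : posn n0 a0 c ≠ posn n0 a0 z.1 := fun h => hcz (posn_inj hc0 oz0 h)
    omega
  have k2 : 0 < posn n2 a2 a := by
    have h2 : posn n2 a2 a ≠ posn n2 a2 w.1 := fun h => haw (posn_inj h2a ow2 h)
    omega
  have k3 : 0 < posn m1 b1 a := by
    have h2 : posn m1 b1 a ≠ posn m1 b1 z.1 := fun h => haz (posn_inj h1a oz1 h).symm
    omega
  have k4 : posn m1 b1 c < m1 - 1 := by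
    have h1 := (posn_spec hc1).1
    have h2 : posn m1 b1 c ≠ posn m1 b1 w.1 := fun h => hcw (posn_inj hc1 ow1 h)
    omega
  simp only [SG.P4, sdo_adj, posn2_left hA oz0, posn2_left hA hc0, posn2_right hA h2a,
    posn2_right hA ow2, posn1 hB oz1, posn1 hB hc1, posn1 hB h1a, posn1 hB ow1, qz0, qw2, qz1, qw1]
  refine ⟨?_, ?_, ?_, ?_, ?_, ?_⟩ <;> omega

end

end H13CP
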