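import Pool.Agent.H13.CP.J2
import Pool.Agent.H21.CK.J

/-!
The pair `JP P z w` with the new edge `none` (project CP, MP_472c72, `r ≥ 3`): its two members
through the new edge, the common elements, and the contradiction `z - c - a - w`.
-/

namespace H13CP

open Finset H48CP H21CK
open scoped Classical

variable {U : Type*} {P : Pr U} {r : ℕ} {ka kb : U × Bool → ℕ} {z w : U × Bool}
  {n0 n2 m1 : ℕ} {a0 a2 b1 : ℕ → U × Bool}

lemma lf_eq_emb (e : U × Bool) : lf e = emb e := rfl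

/-- the sequences used for the new pair: `C_0` cut at `al z`, `C_2` cut at `w`, `C_1` cut at `z` -/
structure JS (P : Pr U) (ka kb : U × Bool → ℕ) (z w : U × Bool) (n0 n2 m1 : ℕ)
    (a0 a2 b1 : ℕ → U × Bool) : Prop where
  c0 : CutSeq P.al n0 a0
  c2 : CutSeq P.al n2 a2
  c1 : CutSeq P.be m1 b1
  s0 : a0 0 = P.al z
  s2 : a2 0 = w
  s1 : b1 0 = z
  o0 : ∀ u, occ n0 a0 u ↔ ka (u, true) = 0
  o2 : ∀ u, occ n2 a2 u ↔ ka (u, true) = 2
  o1 : ∀ u, occ m1 b1 u ↔ kb (u, true) = 1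

theorem exists_JS (h : JD P r ka kb z w) :
    ∃ n0 n2 m1 a0 a2 b1, JS P ka kb z w n0 n2 m1 a0 a2 b1 := by
  obtain ⟨n0, a0, h1, h2, h3⟩ := h.lev.seqa (P.al z)
  obtain ⟨n2, a2, h4, h5, h6⟩ := h.lev.seqa w
  obtain ⟨m1, b1, h7, h8, h9⟩ := h.lev.seqb z
  refine ⟨n0, n2, m1, a0, a2, b1, h1, h4, h7, h2, h5, h8, ?_, ?_, ?_⟩
  · intro u
    rw [h3, h.lev.a_al, h.kaz]
  · intro u
    rw [h6, h.kw]
  · intro u
    rw [h9, h.kbz]

lemma JS.hd (hs : JS P ka kb z w n0 n2 m1 a0 a2 b1) :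
    ∀ i < n0, ∀ j < n2, (a0 i).1 ≠ (a2 j).1 := by
  intro i hi j hj h
  have h1 := (hs.o0 _).1 ⟨i, hi, rfl⟩
  have h2 := (hs.o2 _).1 ⟨j, hj, rfl⟩
  rw [h, h2] at h1
  omega

/-- the `al`-member of the new edge -/
theorem JS.cutA (h : JD P r ka kb z w) (hs : JS P ka kb z w n0 n2 m1 a0 a2 b1) :
    CutSeq (JP P z w h.jc).al (1 + n0 + n2) (seq2 n0 a0 a2) := by
  have hj := h.jc
  refine cut2 P.al2 hs.c0 hs.c2 hs.hd ?_ ?_ ?_ ?_
  · rw [hs.s0]
    rfl
  · rw [hs.s0, hs.s2, P.al2]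
    exact jal_z hj
  · rw [hs.s2]
    exact jal_aw hj
  · intro e h1 h2 h3 h4
    rw [hs.s0] at h1 h2
    rw [hs.s2] at h3 h4
    rw [P.al2] at h2
    exact jal_oth h2 h3 h1 h4

/-- the `be`-member of the new edge -/
theorem JS.cutB (h : JD P r ka kb z w) (hs : JS P ka kb z w n0 n2 m1 a0 a2 b1) :
    CutSeq (JP P z w h.jc).be (1 + m1) (seq1 b1) := by
  have hj := h.jc
  refine cut1 P.be2 hs.c1 ?_ ?_ ?_
  · rw [hs.s1]
    rfl
  · rw [hs.s1, hj.b]
    exact jbe_w hj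
  · intro e h1 h2
    rw [hs.s1] at h1 h2
    rw [hj.b] at h2
    exact jbe_oth h1 h2

/-- the common elements: the new edge and the elements of `C_1` -/
noncomputable def jS [Fintype U] (kb : U × Bool → ℕ) : Finset (Option U) :=
  univ.filter fun o => ∀ u, o = some u → kb (u, true) = 1

lemma none_mem_jS [Fintype U] : (none : Option U) ∈ jS kb := by
  simp [jS]

lemma some_mem_jS [Fintype U] {u : U} : some u ∈ jS kb ↔ kb (u, true) = 1 := by
  simp [jS]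

lemma some_mem_jS' [Fintype U] {u : U} : some u ∈ (jS kb).erase none ↔ kb (u, true) = 1 := by
  rw [mem_erase, some_mem_jS]
  simp

theorem JS.com [Fintype U] (h : JD P r ka kb z w)
    (hs : JS P ka kb z w n0 n2 m1 a0 a2 b1) :
    Com (1 + n0 + n2) (seq2 n0 a0 a2) (1 + m1) (seq1 b1) (jS kb) := by
  intro o
  rcases o with _ | u
  · exact ⟨fun _ => ⟨occ2_none, occ1_none⟩, fun _ => none_mem_jS⟩
  · rw [some_mem_jS, occ2, occ1, hs.o0, hs.o2, hs.o1]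
    have := h.lev.step (u, true)
    constructor
    · intro h1
      exact ⟨by omega, h1⟩
    · exact fun h1 => h1.2

/-- the new edge is an isolated plus, at position `0` of both sequences -/
theorem JS.none_first (h : JD P r ka kb z w) (hs : JS P ka kb z w n0 n2 m1 a0 a2 b1) :
    posn (1 + n0 + n2) (seq2 n0 a0 a2) none = 0 ∧ posn (1 + m1) (seq1 b1) none = 0 ∧
      ¬ (sdo (1 + n0 + n2) (seq2 n0 a0 a2) (1 + m1) (seq1 b1)).sg none ∧
      ∀ o, ¬ (sdo (1 + n0 + n2) (seq2 n0 a0 a2) (1 + m1) (seq1 b1)).G.adj o none := by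
  have h1 := posn2_none (JS.cutA h hs)
  have h2 := posn1_none (JS.cutB h hs)
  refine ⟨h1, h2, ?_, ?_⟩
  · show ¬ (seq2 n0 a0 a2 (posn _ _ none) ≠ seq1 b1 (posn _ _ none))
    rw [h1, h2]
    simp
  · intro o
    rw [sdo_adj, h1, h2]
    omega

/-- the contradiction: `z - c - a - w` is an induced path -/
theorem JS.false [Fintype U] (h : JD P r ka kb z w)
    (hs : JS P ka kb z w n0 n2 m1 a0 a2 b1)
    (hAx : SG.Ax False (sdo (1 + n0 + n2) (seq2 n0 a0 a2) (1 + m1) (seq1 b1)).G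
      ((jS kb).erase none)) {a c : U} (ha2 : ka (a, true) = 2) (ha1 : kb (a, true) = 1)
    (hc0 : ka (c, true) = 0) (hc1 : kb (c, true) = 1) (haw : a ≠ w.1)
    (hlt : posn m1 b1 a < posn m1 b1 c) : False := by
  have hp := j2_p4 P.al2 P.be2 hs.c0 hs.c2 hs.c1 hs.hd (JS.cutA h hs) (JS.cutB h hs) (z := z)
    (w := w) (by rw [hs.s0, P.al2]) hs.s2 hs.s1 (by rw [hs.s1, h.jc.b]) ((hs.o0 c).2 hc0)
    ((hs.o1 c).2 hc1) ((hs.o2 a).2 ha2) ((hs.o1 a).2 ha1) haw hlt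
  have hz1 : kb (z.1, true) = 1 := by rw [h.lev.kb_true, h.kbz]
  have hw1 : kb (w.1, true) = 1 := by rw [h.lev.kb_true, h.kbw]
  exact (SG.thmA hAx).p4 _ (some_mem_jS'.2 hz1) _ (some_mem_jS'.2 hc1) _ (some_mem_jS'.2 ha1) _
    (some_mem_jS'.2 hw1) hp

end H13CP
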