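import Pool.Agent.H13.CP.J2b

/-!
The pair `JP P z w` is locally critical, so the common elements of its two members through the new
edge, except the new edge itself, form an alpha system (project CP, MP_472c72, `r ≥ 3`).
-/

namespace H13CP

open Finset H48CP H21CK
open scoped Classical

/-- a beta system without an isolated plus is an alpha system -/
theorem ax_erase {V : Type*} [DecidableEq V] {G : SG V} {S : Finset V} (h : SG.Ax True G S) {o : V}
    (ho : o ∈ S) (hiso : ∀ v ∈ S, ¬ G.adj v o) : SG.Ax False G (S.erase o) where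
  e2a := by
    intro a ha b hb hadj sa sb
    obtain ⟨z, hz, sz, za, zb, hB⟩ := h.e2a a (mem_of_mem_erase ha) b (mem_of_mem_erase hb)
      hadj sa sb
    refine ⟨z, mem_erase.2 ⟨?_, hz⟩, sz, za, zb, fun v hv => hB v (mem_of_mem_erase hv)⟩
    rintro rfl
    exact hiso a (mem_of_mem_erase ha) (G.symm za)
  e2b := by
    intro a ha b hb hne hadj sa sb hcc
    obtain ⟨c, hc, ca, cb⟩ := hcc.resolve_left id
    obtain ⟨z, hz, sz, za, zb, hB⟩ := h.e2b a (mem_of_mem_erase ha) b (mem_of_mem_erase hb)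
      hne hadj sa sb (Or.inl trivial)
    refine ⟨z, mem_erase.2 ⟨?_, hz⟩, sz, za, zb, fun v hv => hB v (mem_of_mem_erase hv)⟩
    rintro rfl
    have hcz : c ≠ z := by
      rintro rfl
      exact za ca
    exact hiso c (mem_of_mem_erase hc)
      ((hB c (mem_of_mem_erase hc) (SG.adj_ne ca) (SG.adj_ne cb) hcz).1 ca cb)
  e4 := by
    intro x hx s hs t ht y hy hP sx ss st sy
    left
    have hx' := mem_of_mem_erase hx
    have hs' := mem_of_mem_erase hs
    have ht' := mem_of_mem_erase ht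
    have hy' := mem_of_mem_erase hy
    rcases h.e4 x hx' s hs' t ht' y hy' hP sx ss st sy with h1 | ⟨-, h1⟩
    · obtain ⟨k, hk, k1, k2, k3, k4, hpat, hcl⟩ := h1
      refine ⟨k, mem_erase.2 ⟨?_, hk⟩, k1, k2, k3, k4, hpat,
        fun p hp => hcl p (mem_of_mem_erase hp)⟩
      rintro rfl
      have n1 : ¬ G.adj k x := fun h2 => hiso x hx' (G.symm h2)
      have n2 : ¬ G.adj k y := fun h2 => hiso y hy' (G.symm h2)
      simp only [SG.Pat] at hpat
      tauto
    · exfalso
      have h2 := h1 o ho (mem_erase.1 hx).1.symm (mem_erase.1 hs).1.symm (mem_erase.1 ht).1.symm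
        (mem_erase.1 hy).1.symm
      have n1 : ¬ G.adj o x := fun h2 => hiso x hx' (G.symm h2)
      have n2 : ¬ G.adj o s := fun h2 => hiso s hs' (G.symm h2)
      have n3 : ¬ G.adj o t := fun h2 => hiso t ht' (G.symm h2)
      have n4 : ¬ G.adj o y := fun h2 => hiso y hy' (G.symm h2)
      tauto

variable {U : Type*} {P : Pr U} {r : ℕ} {ka kb : U × Bool → ℕ} {z w : U × Bool}
  {n0 n2 m1 : ℕ} {a0 a2 b1 : ℕ → U × Bool}

/-- local criticality of the new pair -/
theorem JS.lc [Fintype U] (h : JD P r ka kb z w) (hC : P.Crit)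
    (hs : JS P ka kb z w n0 n2 m1 a0 a2 b1) :
    LC (JP P z w h.jc) (1 + n0 + n2) (seq2 n0 a0 a2) (1 + m1) (seq1 b1) (jS kb) := by
  have hA := JS.cutA h hs
  have hB := JS.cutB h hs
  have hx : ∀ T : Finset (Option U), ¬ zz (1 + n0 + n2) (seq2 n0 a0 a2) T tS := by
    intro T h1
    have h2 := (zz_in hA (T := T) (by omega : 0 < 1 + n0 + n2)).1 h1
    rw [cz_zero] at h2
    exact absurd h2 (by decide)
  have hy : ∀ T : Finset (Option U), ¬ zz (1 + m1) (seq1 b1) T tS := by
    intro T h1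
    have h2 := (zz_in hB (T := T) (by omega : 0 < 1 + m1)).1 h1
    rw [cz_zero] at h2
    exact absurd h2 (by decide)
  constructor
  · exact fun T _ _ => hx T
  · exact fun T _ _ => hy T
  · intro T hT hAlt
    left
    obtain ⟨Y, g, hBr, hg⟩ := h.crit hC hAlt (by
      intro e he
      have h1 := (occ2.1 he.1)
      rw [hs.o0, hs.o2, h.lev.ka_true] at h1
      exact h1) (by
      intro e he
      have h1 := (occ1.1 he.1)
      rw [hs.o1, h.lev.kb_true] at h1
      exact h1)
    refine ⟨Y, g, hBr, ?_, rfl⟩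
    rcases hg with rfl | ⟨u, rfl, -, h2⟩
    · exact none_mem_jS
    · exact some_mem_jS.2 h2

theorem JS.hon [Fintype U] (h : JD P r ka kb z w) (hC : P.Crit)
    (hs : JS P ka kb z w n0 n2 m1 a0 a2 b1) :
    Sdo.Hon True (sdo (1 + n0 + n2) (seq2 n0 a0 a2) (1 + m1) (seq1 b1)) (jS kb) :=
  hon_of_lc (JS.lc h hC hs) (JS.cutA h hs) (JS.cutB h hs) (JS.com h hs)

theorem JS.ax [Fintype U] (h : JD P r ka kb z w) (hC : P.Crit)
    (hs : JS P ka kb z w n0 n2 m1 a0 a2 b1) :
    SG.Ax False (sdo (1 + n0 + n2) (seq2 n0 a0 a2) (1 + m1) (seq1 b1)).G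
      ((jS kb).erase none) :=
  ax_erase (JS.hon h hC hs).ax none_mem_jS fun o _ => (JS.none_first h hs).2.2.2 o

/-- in `C_1`, cut at `z`, the elements of `C_0` come before the elements of `C_2` other than the
element of `w` -/
theorem JS.before [Fintype U] (h : JD P r ka kb z w) (hC : P.Crit)
    (hs : JS P ka kb z w n0 n2 m1 a0 a2 b1) {a c : U} (ha2 : ka (a, true) = 2)
    (ha1 : kb (a, true) = 1) (hc0 : ka (c, true) = 0) (hc1 : kb (c, true) = 1) (haw : a ≠ w.1) :
    posn m1 b1 c < posn m1 b1 a := by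
  by_contra hcon
  have hne : posn m1 b1 a ≠ posn m1 b1 c := by
    intro h1
    have h2 := posn_inj ((hs.o1 a).2 ha1) ((hs.o1 c).2 hc1) h1
    rw [h2, hc0] at ha2
    omega
  exact JS.false h hs (JS.ax h hC hs) ha2 ha1 hc0 hc1 haw (by omega)

end H13CP
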