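import Pool.Agent.H48.CP.Pair

/-!
Members of a coloured pair: orbits of the group generated by `mu` and a fixed point free
involution `σ` (a colour), cut at an end (project CP, MP_472c72).
-/

namespace H13CP

open Finset H48CP

variable {U : Type*}

/-- one step along a member -/
def Nx (σ : U × Bool → U × Bool) (e : U × Bool) : U × Bool := σ (mu e)

/-- the same member -/
def SameO (σ : U × Bool → U × Bool) (e f : U × Bool) : Prop :=
  Relation.ReflTransGen (fun x y => y = σ x ∨ y = mu x) e f

lemma SameO.refl (σ : U × Bool → U × Bool) (e : U × Bool) : SameO σ e e :=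
  Relation.ReflTransGen.refl

lemma SameO.trans {σ : U × Bool → U × Bool} {e f g : U × Bool} (h : SameO σ e f)
    (h' : SameO σ f g) : SameO σ e g :=
  Relation.ReflTransGen.trans h h'

lemma SameO.col {σ : U × Bool → U × Bool} {e f : U × Bool} (h : SameO σ e f) :
    SameO σ e (σ f) := h.tail (Or.inl rfl)

lemma SameO.mu {σ : U × Bool → U × Bool} {e f : U × Bool} (h : SameO σ e f) :
    SameO σ e (mu f) := h.tail (Or.inr rfl)

lemma SameO.symm {σ : U × Bool → U × Bool} (hσ : ∀ e, σ (σ e) = e) {e f : U × Bool}
    (h : SameO σ e f) : SameO σ f e := by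
  induction h with
  | refl => exact SameO.refl _ _
  | @tail g g' h1 h2 ih =>
    rcases h2 with h2 | h2
    · subst h2
      refine SameO.trans ?_ ih
      have := (SameO.refl σ (σ g)).col
      rw [hσ] at this
      exact this
    · subst h2
      refine SameO.trans ?_ ih
      have := (SameO.refl σ (H48CP.mu g)).mu
      rw [mu_mu] at this
      exact this

/-- an invariant function is constant on a member -/
lemma SameO.const {σ : U × Bool → U × Bool} {α : Type*} {Y : U × Bool → α} {e f : U × Bool}
    (h : SameO σ e f) (h1 : ∀ x, SameO σ e x → Y (σ x) = Y x)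
    (h2 : ∀ x, SameO σ e x → Y (H48CP.mu x) = Y x) : Y f = Y e := by
  induction h with
  | refl => rfl
  | tail h3 h4 ih =>
    rcases h4 with h4 | h4
    · subst h4
      rw [h1 _ h3, ih]
    · subst h4
      rw [h2 _ h3, ih]

section

variable {σ : U × Bool → U × Bool} (hσ : ∀ e, σ (σ e) = e) (hσ1 : ∀ e, σ e ≠ e)

include hσ in
lemma Nx_inj {e f : U × Bool} (h : Nx σ e = Nx σ f) : e = f := by
  have h1 : mu e = mu f := by rw [← hσ (mu e), ← hσ (mu f)]; exact congrArg σ h
  rw [← mu_mu e, ← mu_mu f, h1]

include hσ in
lemma Nx_iter_inj {e f : U × Bool} (k : ℕ) (h : (Nx σ)^[k] e = (Nx σ)^[k] f) : e = f :=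
  (Function.Injective.iterate (fun _ _ h' => Nx_inj hσ h') k) h

include hσ hσ1 in
/-- a member is not passed back -/
lemma iter_ne_mu (k : ℕ) : ∀ e, (Nx σ)^[k] e ≠ mu e := by
  induction k using Nat.twoStepInduction with
  | zero => exact fun e h => mu_ne e h.symm
  | one => exact fun e h => hσ1 (mu e) h
  | more k ih _ =>
    intro e h
    apply ih (Nx σ e)
    apply Nx_inj hσ
    rw [← Function.iterate_succ_apply' (Nx σ) k, ← Function.iterate_succ_apply (Nx σ) (k + 1), h]
    simp only [Nx, mu_mu]
    rw [hσ]

include hσ in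
lemma exists_period [Finite U] (e : U × Bool) :
    ∃ n, 0 < n ∧ (Nx σ)^[n] e = e ∧ ∀ k, 0 < k → k < n → (Nx σ)^[k] e ≠ e := by
  classical
  have h : ∃ n, 0 < n ∧ (Nx σ)^[n] e = e := by
    obtain ⟨i, j, hij, he⟩ := Finite.exists_ne_map_eq_of_infinite fun k : ℕ => (Nx σ)^[k] e
    wlog hlt : i < j generalizing i j
    · exact this j i hij.symm he.symm (lt_of_le_of_ne (not_lt.1 hlt) hij.symm)
    refine ⟨j - i, by omega, ?_⟩
    apply Nx_iter_inj hσ i
    rw [← Function.iterate_add_apply]
    have : i + (j - i) = j := by omega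
    rw [this]
    exact he.symm
  refine ⟨Nat.find h, (Nat.find_spec h).1, (Nat.find_spec h).2, fun k hk hk' he => ?_⟩
  exact Nat.find_min h hk' ⟨hk, he⟩

include hσ hσ1 in
/-- every member can be cut at every end -/
theorem exists_cutSeq [Finite U] (e : U × Bool) :
    ∃ n a, CutSeq σ n a ∧ a 0 = e ∧ (∀ f, occ n a f.1 ↔ SameO σ e f) ∧
      ∀ k, a k = (Nx σ)^[k] e := by
  obtain ⟨n, hn, hn1, hn2⟩ := exists_period hσ e
  have hstep : ∀ k, σ (mu ((Nx σ)^[k] e)) = (Nx σ)^[k + 1] e := fun k => by
    rw [Function.iterate_succ_apply']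
    rfl
  have hclose : σ (mu ((Nx σ)^[n - 1] e)) = (Nx σ)^[0] e := by
    rw [hstep, Nat.sub_add_cancel hn, hn1]
    rfl
  have hlt : ∀ i j, i < j → j < n → ((Nx σ)^[i] e).1 ≠ ((Nx σ)^[j] e).1 := by
    intro i j hij hj h
    have hj' : (Nx σ)^[j] e = (Nx σ)^[j - i] ((Nx σ)^[i] e) := by
      rw [← Function.iterate_add_apply]
      congr 2
      omega
    rcases eq_or_mu h.symm with h1 | h1
    · rw [← Nat.sub_add_cancel hij.le, Function.iterate_add_apply,
        ← Function.iterate_add_apply, Nat.add_comm, Function.iterate_add_apply] at h1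
      exact hn2 (j - i) (by omega) (by omega) (Nx_iter_inj hσ i h1)
    · rw [hj'] at h1
      exact iter_ne_mu hσ hσ1 _ _ h1
  refine ⟨n, fun k => (Nx σ)^[k] e, ⟨hn, ?_, fun i _ => hstep i, hclose⟩, rfl, ?_, fun k => rfl⟩
  · intro i j hi hj h
    rcases lt_trichotomy i j with h1 | h1 | h1
    · exact absurd h (hlt i j h1 hj)
    · exact h1
    · exact absurd h.symm (hlt j i h1 hi)
  · intro f
    constructor
    · rintro ⟨i, hi, hf⟩
      have h1 : SameO σ e ((Nx σ)^[i] e) := by
        clear hi hf
        induction i with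
        | zero => exact SameO.refl _ _
        | succ i ih =>
          rw [← hstep]
          exact ih.mu.col
      rcases eq_or_mu hf.symm with h2 | h2
      · rw [h2]
        exact h1
      · rw [h2]
        exact h1.mu
    · intro h
      induction h with
      | refl => exact ⟨0, hn, rfl⟩
      | tail h1 h2 ih =>
        obtain ⟨i, hi, hf⟩ := ih
        rcases h2 with h2 | h2
        · rcases eq_or_mu hf.symm with h3 | h3
          · -- entering end: go back
            rw [h3] at h2
            rcases Nat.eq_zero_or_pos i with h0 | h0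
            · subst h0
              refine ⟨n - 1, by omega, ?_⟩
              have : σ ((Nx σ)^[0] e) = mu ((Nx σ)^[n - 1] e) := by
                rw [← hclose, hσ]
              rw [h2]
              show _ = (σ ((Nx σ)^[0] e)).1
              rw [this]
              rfl
            · refine ⟨i - 1, by omega, ?_⟩
              have : σ ((Nx σ)^[i] e) = mu ((Nx σ)^[i - 1] e) := by
                have := hstep (i - 1)
                rw [Nat.sub_add_cancel h0] at this
                rw [← this, hσ]
              rw [h2, this]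
              rfl
          · rw [h3, hstep] at h2
            rcases Nat.lt_or_ge (i + 1) n with h0 | h0
            · exact ⟨i + 1, h0, by rw [h2]⟩
            · have : i + 1 = n := by omega
              rw [this, hn1] at h2
              exact ⟨0, hn, by rw [h2]; rfl⟩
        · rw [h2]
          exact ⟨i, hi, hf⟩

include hσ hσ1 in
/-- a function which is constant along the member up to one jump does not exist -/
theorem no_single_jump [Finite U] {Y : U × Bool → ZMod 2} {h : U}
    (h1 : ∀ x, SameO σ (h, true) x → Y (σ x) = Y x) (h2 : ∀ x, x.1 ≠ h → Y (mu x) = Y x)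
    (h3 : Y (h, true) = Y (h, false) + 1) : False := by
  obtain ⟨n, hn, hn1, hn2⟩ := exists_period hσ (h, true)
  have hs : ∀ k, SameO σ (h, true) ((Nx σ)^[k] (h, true)) := by
    intro k
    induction k with
    | zero => exact SameO.refl _ _
    | succ k ih =>
      rw [Function.iterate_succ_apply']
      exact ih.mu.col
  have key : ∀ k, k < n → Y ((Nx σ)^[k + 1] (h, true)) = Y (h, false) := by
    intro k hk
    induction k with
    | zero =>
      show Y (σ (mu (h, true))) = _
      rw [h1 _ (SameO.refl σ (h, true)).mu]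
      rfl
    | succ k ih =>
      rw [Function.iterate_succ_apply']
      show Y (σ (mu _)) = _
      rw [h1 _ (hs (k + 1)).mu, h2, ih (by omega)]
      intro h4
      have h5 : ((Nx σ)^[k + 1] (h, true)).1 = ((h, true) : U × Bool).1 := h4
      rcases eq_or_mu h5 with h6 | h6
      · exact hn2 (k + 1) (by omega) (by omega) h6
      · exact iter_ne_mu hσ hσ1 _ _ h6
  have := key (n - 1) (by omega)
  rw [Nat.sub_add_cancel hn, hn1, h3] at this
  simp at this

end

end H13CP
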