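import Pool.Agent.H13.CP.Chain
import Pool.Agent.H48.CP.Lift

/-!
The levels of a critical pair in the form used by the lifting (project CP, MP_472c72).
-/

namespace H13CP

open Finset H48CP

variable {U : Type*} {P : Pr U} {r : ℕ} {ka kb : U × Bool → ℕ}

lemma Chain.same_a (h : Chain P r ka kb) {e f : U × Bool} :
    SameO P.al e f ↔ ka f = ka e :=
  ⟨fun h1 => h1.const (fun x _ => h.aal x) (fun x _ => h.amu x), fun h1 => h.asame _ _ h1.symm⟩

lemma Chain.same_b (h : Chain P r ka kb) {e f : U × Bool} :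
    SameO P.be e f ↔ kb f = kb e :=
  ⟨fun h1 => h1.const (fun x _ => h.bbe x) (fun x _ => h.bmu x), fun h1 => h.bsame _ _ h1.symm⟩

theorem Chain.lev [Finite U] (h : Chain P r ka kb) : Lev P r ka kb where
  a_al := h.aal
  a_mu := h.amu
  b_be := h.bbe
  b_mu := h.bmu
  seqa e := by
    obtain ⟨n, a, h1, h2, h3, -⟩ := exists_cutSeq P.al2 P.al1 e
    exact ⟨n, a, h1, h2, fun u => (h3 (u, true)).trans h.same_a⟩
  seqb e := by
    obtain ⟨n, a, h1, h2, h3, -⟩ := exists_cutSeq P.be2 P.be1 e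
    exact ⟨n, a, h1, h2, fun u => (h3 (u, true)).trans h.same_b⟩
  step := h.step
  eva := h.aeven
  odb := h.bodd
  odr := h.odd
  lea := h.ale
  leb := h.ble
  p0 := h.x
  q0 := h.y
  ex i hi := by
    obtain ⟨e, h1 | h1⟩ := h.link i hi
    · exact ⟨e, Or.inl h1⟩
    · exact ⟨e, Or.inr ⟨h1.2, h1.1⟩⟩

/-- a critical pair in which `e` is not a bridge has levels -/
theorem exists_lev [Finite U] (hC : P.Crit)
    (hNB : ∀ Y : U × Bool → ZMod 2, (∀ e, Y (P.al e) = Y e) →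
      (∀ e, Y (P.be e) = Y e) → (∀ e, Y (mu e) = Y e) → Y P.p0 = Y P.q0) :
    ∃ r ka kb, Lev P r ka kb := by
  obtain ⟨r, ka, kb, h⟩ := exists_chain hC hNB
  exact ⟨r, ka, kb, h.lev⟩

end H13CP
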